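import Pool.Agent.Work.MP_db9399_og.Interface
import Pool.Agent.Work.MP_db9399_owc.Interface

/-!
# MP_db9399, OWNG2 (helper35): own colours of the vertices of `U ⊆ O`, with conflict graph and caps
-/

set_option autoImplicit false

namespace Pool.Agent.Work.MP_db9399_og

open Finset Classical
open Pool.Agent.Work.MP_db9399_all (nb mis)
open Pool.Agent.Work.MP_db9399_cg (cdg pk sx sp Reg Lab)
open Pool.Agent.Work.MP_db9399_sg
open Pool.Agent.Work.MP_db9399_ox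
open Pool.Agent.Work.MP_db9399_owc (Cap)

universe u

/-- OWNG2: OWNG with a conflict graph `Cf` on `U` (at most half as many conflict edges as edges of
`E` which leave `U`; the vertices of `U` have degree `d` in `E`) and caps `Z`. -/
def Stmt_OWNG2 : Prop :=
  ∃ s a0 : ℝ, 1 ≤ s ∧ 0 < a0 ∧ ∀ a C C1 e2 : ℝ, 0 < a → a ≤ a0 → a ≤ 1 / 100 → 1 ≤ C → 0 < C1 →
    0 < e2 → ∃ e : ℝ, 0 < e ∧ ∀ MS δ β c1 C' ρ0 ρ2 : ℝ, 0 < ρ0 → ∃ d0 : ℕ,
    ∀ {V I I' J Y : Type u} [Fintype V] [Fintype I] [Fintype I'] [Fintype J] [Fintype Y] (P : ℕ)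
      (cl : Fin P → J) (E Cf : SimpleGraph V) (H Gh S : J → SimpleGraph V) (O W U K : Finset V)
      (A Ex Exc : J → Finset V) (nd : J → V → Option (I × Bool)) (pr : I → I') (d : ℕ)
      (D r : J → ℕ) (g : ℝ) (L : ℕ) (N0 N : Fin P → V → V) (Z : Y → Finset V), d0 ≤ d →
      Cls H Gh O W A Ex nd pr d D r a MS g δ β c1 C C' ρ0 →
      (∀ j, (univ.filter fun b => cl b = j).card + r j = D j) → ∑ j, D j = d → U ⊆ O →
      (∀ v, (nb E v).card ≤ d) → (∀ v ∈ U, (nb E v).card = d) → (∀ v w, E.Adj v w → v ∈ W) →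
      (∀ j, H j ≤ E) →
      (∀ v ∈ U, (d : ℝ) ^ (2 - a / 100) ≤ ((mis E (nb E v)).card : ℝ)) →
      (∀ v w, Cf.Adj v w → v ∈ U) → (∀ v, 2 * (nb Cf v).card ≤ (nb E v \ U).card) → Cap d Z →
      (∀ j, ResN (H j) (Gh j) (S j) O (A j) (D j) (r j) a (g / 100) δ (2 * β + 8 * ρ0)
          (c1 / 100) (8 * ρ0) (8 * ρ2) MS K (Exc j)) →
      (∀ j, Krn (S j) O (r j) L (D j) a C1 e) → (∀ j, Flw (H j) (S j) O U (r j) L (e * d)) →
      Mt0 H S cl O nd pr d D r a e (1000 * C' ^ 2 * ρ0) L N0 → Mt1 S cl W nd N0 N →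
      ∃ c : V → Option (Fin P), Own1 E H S cl O U nd d r (10 * s * a) 2 e2 e2 L c N ∧
        (∀ v w, Cf.Adj v w → c v ≠ c w) ∧
        ∀ y b, (((Z y).filter (fun v => c v = some b)).card : ℝ) ≤
          Real.log d ^ 4 * (1 + ((Z y).card : ℝ) / d)

end Pool.Agent.Work.MP_db9399_og
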