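import Pool.Agent.Work.MP_db9399_ox.Interface
import Pool.Agent.Work.MP_db9399_cg.Interface2

/-!
# MP_db9399, OWNG (helper35): own colours of the vertices of `U ⊆ O`

The own colours make tokens at `x` with density `|nb (H j) x ∩ U| / d`; their mean against
`k0 - k1` is small because the kernel has little mass at the vertices of `O` which have many
neighbours outside `U`: condition (F), statement FLW. It needs lower tests for the reserves: ANT,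
A1T.
-/

set_option autoImplicit false

namespace Pool.Agent.Work.MP_db9399_og

open Finset Classical
open Pool.Agent.Work.MP_db9399_all (nb mis)
open Pool.Agent.Work.MP_db9399_cg (cdg pk sx sp Reg Lab)
open Pool.Agent.Work.MP_db9399_sg
open Pool.Agent.Work.MP_db9399_ox

universe u

/-- lower test: `S` sees the neighbours in `Y` of the vertices of `O` -/
def Low {V : Type u} [Fintype V] (H S : SimpleGraph V) (O Y : Finset V) (D r : ℕ) (ρ : ℝ) : Prop :=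
  ∀ x ∈ O, (r : ℝ) * ((nb H x ∩ Y).card : ℝ) ≤ 8 * D * ((nb S x ∩ Y).card : ℝ) + ρ * D * r

/-- condition (F): few kernel mass at vertices with many neighbours outside `U` -/
def Flw {V : Type u} [Fintype V] (H S : SimpleGraph V) (O U : Finset V) (r L : ℕ) (e : ℝ) :
    Prop :=
  ∀ v, ∑ x ∈ O, (k0 S r L v x + k1 S r L v x) * ((nb H x \ U).card : ℝ) ≤ e

/-- FLOW: the walk leaves `O` rarely, because it comes back rarely. Proof: `a m = ∑ x ∈ O, pk m v x`,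
`a (m+1) ≤ (1 + 2/r) a m - out m + in m`, `in m ≤ 3 β`, telescope over `m ∈ [2L-1, 4L-2]`. -/
def Stmt_FLOW : Prop :=
  ∀ {V : Type u} [Fintype V] (S : SimpleGraph V) (O : Finset V) (r L : ℕ) (β : ℝ), 1 ≤ L →
    8 * L ≤ r → 0 ≤ β → (∀ v, (nb S v).card ≤ r + 2) →
    (∀ v, v ∉ O → ((nb S v ∩ O).card : ℝ) ≤ β * r) →
    (∀ v, ∑ x, (k0 S r L v x + k1 S r L v x) ≤ 6) ∧
    (∀ v, ∑ x ∈ O, (k0 S r L v x + k1 S r L v x) * ((nb S x \ O).card : ℝ) ≤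
      (12 * β + 20 / L) * r) ∧
    ∀ v (Z : Finset V), ∑ x ∈ O, (k0 S r L v x + k1 S r L v x) * ((nb S x ∩ Z).card : ℝ) ≤
      (∑ z ∈ Z, (k0 S r L v z + k1 S r L v z) + 3 / L) * r

/-- FLW, from FLOW and the lower tests for `univ \ O` and `O \ U`. -/
def Stmt_FLW : Prop :=
  ∀ e CO : ℝ, 0 < e → 1 ≤ CO → ∃ (β0 : ℝ) (L0 : ℕ), 0 < β0 ∧
    ∀ {V : Type u} [Fintype V] (H S : SimpleGraph V) (O U : Finset V) (D r L : ℕ) (β ρ : ℝ),
      L0 ≤ L → 8 * L ≤ r → 0 ≤ β → β ≤ β0 → ρ ≤ β0 → (∀ v, (nb S v).card ≤ r + 2) →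
      (∀ v, v ∉ O → ((nb S v ∩ O).card : ℝ) ≤ β * r) →
      Low H S O (univ \ O) D r ρ → Low H S O (O \ U) D r ρ →
      (∀ z ∈ O, z ∉ U → (D : ℝ) ≤ CO * ((nb H z \ O).card : ℝ)) → Flw H S O U r L (e * D)

/-- A1T: A1N (`sg_helper35.Stmt_A1N`, proved in `cg_helper68/A1N.lean`) with edge tests. -/
def Stmt_A1T : Prop :=
  ∀ (a C : ℝ) (n2 q : ℕ), 0 < a → a ≤ 1 / 100 → 4 ≤ n2 → 1 ≤ C → ∃ d0 : ℕ,
    ∀ {W J : Type u} [Fintype W] [Fintype J] (Vj : J → Type u) [∀ j, Fintype (Vj j)]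
      (π : ∀ j, Vj j → W) (G : ∀ j, SimpleGraph (Vj j)) (d : ℕ) (D : J → ℕ)
      (X : ∀ j, Fin q → Vj j → Vj j → Prop), d0 ≤ d →
      (∀ j, Function.Injective (π j)) → (∀ j, D j ≤ d ∧ (d : ℝ) ≤ C * D j) →
      (Fintype.card J : ℝ) ≤ C → (∀ j, Reg (G j) (D j)) →
      ∃ (K : Finset W) (M : Bool → Finset W), ∀ j, Lab (G j) (D j) a (1 / 64) (1 / n2)
        (univ.filter fun x => π j x ∈ K) (fun s => univ.filter fun x => π j x ∈ M s) ∧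
        ∀ i v, (((nb (G j) v).filter fun w => X j i v w ∧ π j w ∈ K).card : ℝ) ≤
          ((nb (G j) v).filter fun w => X j i v w).card / 2 + √(D j) * Real.log (D j)

/-- ANT: AN with lower tests for the sets `Y i`. -/
def Stmt_ANT : Prop :=
  ∀ (a ρ0 ρ2 MS C δ β c1 : ℝ) (q : ℕ), 0 < a → a ≤ 1 / 100 → 0 < ρ2 → ρ2 ≤ ρ0 → ρ0 ≤ 1 →
    1 ≤ MS → 1 ≤ C → 0 < δ → 0 < β → 0 < c1 → c1 ≤ 1 → ∃ d0 : ℕ,
    ∀ {V I J : Type u} [Fintype V] [Fintype I] [Fintype J] (H Gh : J → SimpleGraph V)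
      (O : Finset V) (A Ex : J → Finset V) (Y : Fin q → Finset V)
      (nd : J → V → Option (I × Bool)) (d : ℕ) (D r : J → ℕ) (g : ℝ), d0 ≤ d →
      (∀ j, D j ≤ d ∧ (d : ℝ) ≤ C * D j) → (Fintype.card J : ℝ) ≤ C →
      (d : ℝ) ^ (-(a / 200)) ≤ g → g ≤ 1 →
      (∀ j, Odd (r j) ∧ 2 * (D j : ℝ) ^ (1 - a) ≤ r j ∧ (r j : ℝ) + 2 ≤ (D j : ℝ) ^ (1 - a / 3)) →
      (∀ j, Wld (H j) (Gh j) O (A j) (Ex j) (nd j) (D j) MS g δ β c1 C ρ0) →
      ∃ (S : J → SimpleGraph V) (K : Finset V) (Exc : J → Finset V), ∀ j,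
        ResN (H j) (Gh j) (S j) O (A j) (D j) (r j) a (g / 100) δ (2 * β + 8 * ρ0) (c1 / 100) (8 * ρ0)
          (8 * ρ2) MS K (Exc j) ∧ Ex j ⊆ Exc j ∧
        ∀ i, Low (H j) (S j) O (Y i) (D j) (r j) ρ2

/-- OWNG: own colours of `U`. `a1` = `10 s a`; `e` = precision of the kernel, the tokens, (F). -/
def Stmt_OWNG : Prop :=
  ∃ s a0 : ℝ, 1 ≤ s ∧ 0 < a0 ∧ ∀ a C C1 e2 : ℝ, 0 < a → a ≤ a0 → a ≤ 1 / 100 → 1 ≤ C → 0 < C1 →
    0 < e2 → ∃ e : ℝ, 0 < e ∧ ∀ MS δ β c1 C' ρ0 ρ2 : ℝ, 0 < ρ0 → ∃ d0 : ℕ,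
    ∀ {V I I' J : Type u} [Fintype V] [Fintype I] [Fintype I'] [Fintype J] (P : ℕ)
      (cl : Fin P → J) (E : SimpleGraph V) (H Gh S : J → SimpleGraph V) (O W U K : Finset V)
      (A Ex Exc : J → Finset V) (nd : J → V → Option (I × Bool)) (pr : I → I') (d : ℕ)
      (D r : J → ℕ) (g : ℝ) (L : ℕ) (N0 N : Fin P → V → V), d0 ≤ d →
      Cls H Gh O W A Ex nd pr d D r a MS g δ β c1 C C' ρ0 →
      (∀ j, (univ.filter fun b => cl b = j).card + r j = D j) → ∑ j, D j = d → U ⊆ O →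
      (∀ v, (nb E v).card ≤ d) → (∀ v w, E.Adj v w → v ∈ W) → (∀ j, H j ≤ E) →
      (∀ v ∈ U, (d : ℝ) ^ (2 - a / 100) ≤ ((mis E (nb E v)).card : ℝ)) →
      (∀ j, ResN (H j) (Gh j) (S j) O (A j) (D j) (r j) a (g / 100) δ (2 * β + 8 * ρ0)
          (c1 / 100) (8 * ρ0) (8 * ρ2) MS K (Exc j)) →
      (∀ j, Krn (S j) O (r j) L (D j) a C1 e) → (∀ j, Flw (H j) (S j) O U (r j) L (e * d)) →
      Mt0 H S cl O nd pr d D r a e (1000 * C' ^ 2 * ρ0) L N0 → Mt1 S cl W nd N0 N →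
      ∃ c : V → Option (Fin P), Own1 E H S cl O U nd d r (10 * s * a) 2 e2 e2 L c N

end Pool.Agent.Work.MP_db9399_og
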